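import Pool.Agent.Helper15.LP.Defs

set_option autoImplicit false

/-! Module WEIGHTS: fractional weights with all loads at most one. -/

open Finset
open scoped Classical
open Pool.Agent.Helper15.LR

namespace Pool.Agent.Helper15.LP

theorem WEIGHTS_sym (m : ℕ) (i i' : Fin m) :
    ∑ I : Finset (Fin m), (if i ∈ I then (1 : ℝ) / I.card else 0) =
      ∑ I : Finset (Fin m), (if i' ∈ I then (1 : ℝ) / I.card else 0) := by
  refine Fintype.sum_equiv (Equiv.finsetCongr (Equiv.swap i i')) _ _ fun I => ?_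
  have h1 : i' ∈ (Equiv.finsetCongr (Equiv.swap i i')) I ↔ i ∈ I := by
    rw [Equiv.finsetCongr_apply, Finset.mem_map_equiv, Equiv.symm_swap, Equiv.swap_apply_right]
  have h2 : ((Equiv.finsetCongr (Equiv.swap i i')) I).card = I.card := by
    rw [Equiv.finsetCongr_apply, Finset.card_map]
  rw [h2]
  by_cases h3 : i ∈ I
  · rw [if_pos h3, if_pos (h1.2 h3)]
  · rw [if_neg h3, if_neg (fun h => h3 (h1.1 h))]

theorem WEIGHTS_one {m : ℕ} {I : Finset (Fin m)} (hI : I.Nonempty) :
    ∑ i : Fin m, (if i ∈ I then (1 : ℝ) / I.card else 0) = 1 := by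
  rw [Finset.sum_ite_mem, Finset.univ_inter, Finset.sum_const, nsmul_eq_mul]
  have h1 : (I.card : ℝ) ≠ 0 := Nat.cast_ne_zero.2 hI.card_pos.ne'
  field_simp

theorem WEIGHTS_c (m : ℕ) (i : Fin m) :
    (m : ℝ) * ∑ I : Finset (Fin m), (if i ∈ I then (1 : ℝ) / I.card else 0) = 2 ^ m - 1 := by
  have h1 : ∑ i' : Fin m, ∑ I : Finset (Fin m), (if i' ∈ I then (1 : ℝ) / I.card else 0) =
      (m : ℝ) * ∑ I : Finset (Fin m), (if i ∈ I then (1 : ℝ) / I.card else 0) := by
    rw [Finset.sum_congr rfl fun i' _ => WEIGHTS_sym m i' i, Finset.sum_const, Finset.card_univ,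
      Fintype.card_fin, nsmul_eq_mul]
  rw [← h1, Finset.sum_comm]
  have h2 : ∀ I : Finset (Fin m), ∑ i' : Fin m, (if i' ∈ I then (1 : ℝ) / I.card else 0) =
      1 - (if I = ∅ then 1 else 0) := by
    intro I
    by_cases h3 : I = ∅
    · subst h3
      simp
    · rw [WEIGHTS_one (Finset.nonempty_iff_ne_empty.2 h3), if_neg h3, sub_zero]
  rw [Finset.sum_congr rfl fun I _ => h2 I, Finset.sum_sub_distrib, Finset.sum_const,
    Finset.card_univ, Fintype.card_finset, Fintype.card_fin, nsmul_eq_mul, mul_one,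
    Finset.sum_ite_eq', if_pos (Finset.mem_univ _)]
  push_cast
  rfl

theorem WEIGHTS_pair (m : ℕ) (i j : Fin m) (hij : i ≠ j) :
    ∑ I : Finset (Fin m), (if i ∈ I ∧ j ∈ I then (1 : ℝ) else 0) = 2 ^ m / 4 := by
  rw [← Finset.sum_filter, Finset.sum_const, nsmul_eq_mul, mul_one]
  have h1 : (univ.filter fun I : Finset (Fin m) => i ∈ I ∧ j ∈ I) = Finset.Icc {i, j} univ := by
    ext I
    simp only [Finset.mem_filter, Finset.mem_univ, true_and, Finset.mem_Icc,
      Finset.subset_univ, and_true, Finset.insert_subset_iff, Finset.singleton_subset_iff]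
  rw [h1, Finset.card_Icc_finset (Finset.subset_univ _), Finset.card_univ, Fintype.card_fin,
    Finset.card_pair hij]
  have h2 : 2 ≤ m := by
    have h3 := Finset.card_le_univ ({i, j} : Finset (Fin m))
    rw [Finset.card_pair hij, Fintype.card_fin] at h3
    exact h3
  obtain ⟨k, rfl⟩ := Nat.exists_eq_add_of_le h2
  rw [Nat.add_sub_cancel_left]
  push_cast
  rw [pow_add]
  ring

/-- the shares of the levels -/
noncomputable def WEIGHTS_p {m : ℕ} (xi : Fin m → ℝ) (I : Finset (Fin m)) (i : Fin m) : ℝ :=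
  if i ∈ I then 1 / (I.card : ℝ) + (4 * (1 - 1 / 2 ^ m) / (m : ℝ) ^ 2) * ∑ j ∈ I, (xi i - xi j)
  else 0

theorem WEIGHTS_p_sum {m : ℕ} (xi : Fin m → ℝ) {I : Finset (Fin m)} (hI : I.Nonempty) :
    ∑ i, WEIGHTS_p xi I i = 1 := by
  have h1 : ∀ i, WEIGHTS_p xi I i = (if i ∈ I then (1 : ℝ) / I.card else 0) +
      (if i ∈ I then (4 * (1 - 1 / 2 ^ m) / (m : ℝ) ^ 2) * ∑ j ∈ I, (xi i - xi j) else 0) := by
    intro i
    unfold WEIGHTS_p
    by_cases h : i ∈ I
    · rw [if_pos h, if_pos h, if_pos h]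
    · rw [if_neg h, if_neg h, if_neg h, add_zero]
  rw [Finset.sum_congr rfl fun i _ => h1 i, Finset.sum_add_distrib, WEIGHTS_one hI,
    Finset.sum_ite_mem, Finset.univ_inter, ← Finset.mul_sum]
  have h2 : ∑ i ∈ I, ∑ j ∈ I, (xi i - xi j) = 0 := by
    have h3 : ∑ i ∈ I, ∑ j ∈ I, (xi i - xi j) = -∑ i ∈ I, ∑ j ∈ I, (xi i - xi j) := by
      conv_lhs => rw [Finset.sum_comm]
      rw [← Finset.sum_neg_distrib]
      refine Finset.sum_congr rfl fun i _ => ?_
      rw [← Finset.sum_neg_distrib]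
      refine Finset.sum_congr rfl fun j _ => ?_
      ring
    linarith
  rw [h2, mul_zero, add_zero]

theorem WEIGHTS_p_total {m : ℕ} (hm : 1 ≤ m) (xi : Fin m → ℝ) (h0 : ∑ i, xi i = 0) (i : Fin m) :
    (m : ℝ) * ∑ I : Finset (Fin m), WEIGHTS_p xi I i = (2 ^ m - 1) * (1 + xi i) := by
  have hm0 : (m : ℝ) ≠ 0 := Nat.cast_ne_zero.2 (by omega)
  have h1 : ∀ I : Finset (Fin m), WEIGHTS_p xi I i = (if i ∈ I then (1 : ℝ) / I.card else 0) +
      (4 * (1 - 1 / 2 ^ m) / (m : ℝ) ^ 2) * ∑ j, (xi i - xi j) *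
        (if i ∈ I ∧ j ∈ I then (1 : ℝ) else 0) := by
    intro I
    unfold WEIGHTS_p
    by_cases h : i ∈ I
    · rw [if_pos h, if_pos h]
      congr 2
      rw [← Finset.sum_filter_add_sum_filter_not univ (fun j => j ∈ I)]
      rw [Finset.sum_eq_zero (s := univ.filter fun j => ¬ j ∈ I), add_zero]
      · have h2 : (univ.filter fun j => j ∈ I) = I := by ext j; simp
        rw [h2]
        refine Finset.sum_congr rfl fun j hj => ?_
        rw [if_pos ⟨h, hj⟩, mul_one]
      · intro j hj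
        rw [Finset.mem_filter] at hj
        rw [if_neg (fun h3 => hj.2 h3.2), mul_zero]
    · rw [if_neg h, if_neg h]
      rw [Finset.sum_eq_zero, mul_zero, add_zero]
      intro j _
      rw [if_neg (fun h3 => h h3.1), mul_zero]
  rw [Finset.sum_congr rfl fun I _ => h1 I, Finset.sum_add_distrib, mul_add, WEIGHTS_c,
    ← Finset.mul_sum, Finset.sum_comm]
  have h2 : ∑ j, ∑ I : Finset (Fin m), (xi i - xi j) * (if i ∈ I ∧ j ∈ I then (1 : ℝ) else 0) =
      2 ^ m / 4 * ((m : ℝ) * xi i) := by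
    have h3 : ∀ j, ∑ I : Finset (Fin m), (xi i - xi j) * (if i ∈ I ∧ j ∈ I then (1 : ℝ) else 0) =
        2 ^ m / 4 * (xi i - xi j) := by
      intro j
      by_cases hij : i = j
      · subst hij
        simp
      · rw [← Finset.mul_sum, WEIGHTS_pair m i j hij]; ring
    rw [Finset.sum_congr rfl fun j _ => h3 j, ← Finset.mul_sum, Finset.sum_sub_distrib, h0,
      Finset.sum_const, Finset.card_univ, Fintype.card_fin, nsmul_eq_mul, sub_zero]
  rw [h2]
  have h4 : (2 : ℝ) ^ m ≠ 0 := by positivity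
  field_simp

theorem WEIGHTS_p_bound {m : ℕ} (hm : 1 ≤ m) (xi : Fin m → ℝ) {x0 : ℝ}
    (hx : ∀ i, |xi i| ≤ x0) {I : Finset (Fin m)} {i : Fin m} (hi : i ∈ I) :
    |WEIGHTS_p xi I i - 1 / (I.card : ℝ)| ≤ 8 * x0 / m := by
  have hm0 : (0 : ℝ) < m := Nat.cast_pos.2 (by omega)
  unfold WEIGHTS_p
  rw [if_pos hi, add_sub_cancel_left, abs_mul]
  have hx0 : 0 ≤ x0 := (abs_nonneg _).trans (hx i)
  have h1 : |∑ j ∈ I, (xi i - xi j)| ≤ m * (2 * x0) := by
    refine (Finset.abs_sum_le_sum_abs _ _).trans ?_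
    have h2 : ∀ j ∈ I, |xi i - xi j| ≤ 2 * x0 := by
      intro j _
      have h3 := abs_sub (xi i) (xi j)
      have h4 := hx i
      have h5 := hx j
      linarith
    refine (Finset.sum_le_sum h2).trans ?_
    rw [Finset.sum_const, nsmul_eq_mul]
    have h6 : (I.card : ℝ) ≤ m := by
      have := Finset.card_le_univ I
      rw [Fintype.card_fin] at this
      exact_mod_cast this
    exact mul_le_mul_of_nonneg_right h6 (by positivity)
  have h7 : |4 * (1 - 1 / 2 ^ m) / (m : ℝ) ^ 2| ≤ 4 / (m : ℝ) ^ 2 := by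
    have h8 : (0 : ℝ) < 1 / 2 ^ m := by positivity
    have h9 : (1 : ℝ) / 2 ^ m ≤ 1 := by
      rw [div_le_one (by positivity)]
      exact one_le_pow₀ (by norm_num)
    rw [abs_of_nonneg (div_nonneg (by linarith) (by positivity))]
    exact div_le_div_of_nonneg_right (by linarith) (by positivity)
  calc _ ≤ 4 / (m : ℝ) ^ 2 * (m * (2 * x0)) :=
        mul_le_mul h7 h1 (abs_nonneg _) (by positivity)
    _ = 8 * x0 / m := by
        field_simp
        ring

theorem WEIGHTS_pat_symm {V : Type} {m : ℕ} (σ : V → Fin m → Bool) (u v : V) :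
    pat σ u v = pat σ v u := by
  unfold pat
  ext j
  simp only [Finset.mem_filter, Finset.mem_univ, true_and]
  exact ne_comm

theorem WEIGHTS_gen (m L' l' y P B c X : ℝ) (hm : 0 < m) (hy : 0 < y) (hl' : 0 < l')
    (hX : X ≠ 0) (hL' : L' * y = l' * m) :
    L' * ((P - 1 / m * B) / l') =
      (m * c + X * ((m / y * P - m * c) / X)) - B - (1 / y - 1) * B := by
  rw [mul_div_cancel₀ _ hX]
  have h4 : L' = l' * m / y := by rw [eq_div_iff hy.ne', hL']
  rw [h4]
  field_simp
  ring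

theorem lp_WEIGHTS (hS : Signs_stmt) : Weights_stmt := by
  intro V _ G D m l L hreg hm hV hD hDL hL2 hsum hxi
  -- numerical facts
  have hm1 : (60 : ℝ) ≤ m := by exact_mod_cast hm
  have hm0 : (0 : ℝ) < m := by linarith
  have hDr : (10 : ℝ) ^ 12 * (m : ℝ) ^ 5 ≤ D := by exact_mod_cast hD
  have hD0 : (0 : ℝ) < D := lt_of_lt_of_le (by positivity) hDr
  have hLD : (D : ℝ) + 10 ^ 6 * (m : ℝ) ^ 4 ≤ L := by exact_mod_cast hDL
  have hL0 : (0 : ℝ) < L := lt_of_lt_of_le (by positivity) hLD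
  set s : ℝ := Real.sqrt m with hs
  set t : ℝ := Real.sqrt D with ht
  have hs0 : 0 < s := Real.sqrt_pos.2 hm0
  have ht0 : 0 < t := Real.sqrt_pos.2 hD0
  have hss : s * s = m := Real.mul_self_sqrt hm0.le
  have htt : t * t = D := Real.mul_self_sqrt hD0.le
  have hst : (10 : ℝ) ^ 6 * (m : ℝ) ^ 2 * s ≤ t := by
    rw [ht]
    apply Real.le_sqrt_of_sq_le
    calc ((10 : ℝ) ^ 6 * (m : ℝ) ^ 2 * s) ^ 2 = 10 ^ 12 * (m : ℝ) ^ 4 * (s * s) := by ring
      _ = 10 ^ 12 * (m : ℝ) ^ 5 := by rw [hss]; ring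
      _ ≤ D := hDr
  have hmD : Real.sqrt ((m : ℝ) * D) = s * t := by rw [Real.sqrt_mul hm0.le]
  have hmD2 : Real.sqrt ((m : ℝ) / D) = s / t := by rw [Real.sqrt_div hm0.le]
  set x0 : ℝ := 2 * m * (s / t) with hx0
  have hx0p : 0 < x0 := by positivity
  have hx0m : x0 * m ≤ 2 / 10 ^ 6 := by
    have h1 : x0 * m = 2 * (m : ℝ) ^ 2 * s / t := by rw [hx0]; ring
    rw [h1, div_le_div_iff₀ ht0 (by positivity)]
    nlinarith
  have hx0s : x0 ≤ 1 / 100 := by
    have h1 : x0 * 60 ≤ x0 * m := mul_le_mul_of_nonneg_left hm1 hx0p.le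
    have h2 : (2 : ℝ) / 10 ^ 6 ≤ 1 := by norm_num
    linarith
  -- the discrepancies
  obtain ⟨xi, hxid⟩ : ∃ xi : Fin m → Sym2 V → ℝ, ∀ i e, xi i e = (m : ℝ) * l i e / L - 1 :=
    ⟨_, fun _ _ => rfl⟩
  have hxb : ∀ i, ∀ e ∈ G.edgeSet, |xi i e| ≤ x0 := by
    intro i e he
    rw [hxid, hx0, ← hmD2]
    exact hxi i e he
  have hx1 : ∀ e ∈ G.edgeSet, ∑ i, xi i e = 0 := by
    intro e he
    have h1 : ∀ i, xi i e = (m : ℝ) / L * l i e - 1 := fun i => by rw [hxid]; ring
    rw [Finset.sum_congr rfl fun i _ => h1 i, Finset.sum_sub_distrib, ← Finset.mul_sum,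
      Finset.sum_const, Finset.card_univ, Fintype.card_fin, nsmul_eq_mul, mul_one]
    have h2 : ∑ i, (l i e : ℝ) = L := by exact_mod_cast hsum e he
    rw [h2]
    field_simp
    ring
  have hinv : ∀ i, ∀ e ∈ G.edgeSet, 0 < 1 + xi i e ∧ 1 / (1 + xi i e) ≤ 2 ∧
      |1 / (1 + xi i e) - 1| ≤ 2 * x0 := by
    intro i e he
    have h1 := abs_le.1 (hxb i e he)
    have h2 : 0 < 1 + xi i e := by linarith [h1.1]
    have h3 : 1 / (1 + xi i e) ≤ 2 := by
      rw [div_le_iff₀ h2]; linarith [h1.1]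
    refine ⟨h2, h3, ?_⟩
    have h4 : 1 / (1 + xi i e) - 1 = -(xi i e) * (1 / (1 + xi i e)) := by
      field_simp
      ring
    rw [h4, abs_mul, abs_neg, abs_of_nonneg (div_nonneg zero_le_one h2.le)]
    calc |xi i e| * (1 / (1 + xi i e)) ≤ x0 * 2 :=
          mul_le_mul (hxb i e he) h3 (div_nonneg zero_le_one h2.le) hx0p.le
      _ = 2 * x0 := by ring
  -- the functions `r`
  obtain ⟨r, hr⟩ : ∃ r : Fin m → V → V → Finset (Fin m) → ℝ, ∀ i u v I, r i u v I =
      if G.Adj u v then (m / (1 + xi i s(u, v)) * WEIGHTS_p (fun k => xi k s(u, v)) I i -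
        m * (if i ∈ I then 1 / (I.card : ℝ) else 0)) / (20 * m * x0) else 0 :=
    ⟨_, fun _ _ _ _ => rfl⟩
  have hr1 : ∀ i u v I, |r i u v I| ≤ 1 := by
    intro i u v I
    rw [hr]
    by_cases huv : G.Adj u v
    · rw [if_pos huv, abs_div, abs_of_pos (show (0 : ℝ) < 20 * m * x0 by positivity),
        div_le_one (by positivity)]
      have he : s(u, v) ∈ G.edgeSet := huv
      obtain ⟨h2, h3, h4⟩ := hinv i _ he
      by_cases hi : i ∈ I
      · rw [if_pos hi]
        have h5 := WEIGHTS_p_bound (by omega : 1 ≤ m) (fun k => xi k s(u, v))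
          (fun k => hxb k _ he) hi
        set P := WEIGHTS_p (fun k => xi k s(u, v)) I i with hP
        have h6 : (m : ℝ) / (1 + xi i s(u, v)) * P - m * (1 / (I.card : ℝ)) =
            m * (1 / (1 + xi i s(u, v))) * (P - 1 / (I.card : ℝ)) +
            m * (1 / (I.card : ℝ)) * (1 / (1 + xi i s(u, v)) - 1) := by ring
        rw [h6]
        have hc : (1 : ℝ) / (I.card : ℝ) ≤ 1 := by
          have h7 : (1 : ℝ) ≤ I.card := by
            exact_mod_cast Finset.card_pos.2 ⟨i, hi⟩
          rw [div_le_one (by linarith)]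
          exact h7
        have hc0 : (0 : ℝ) ≤ 1 / (I.card : ℝ) := by positivity
        have hy0 : (0 : ℝ) ≤ 1 / (1 + xi i s(u, v)) := div_nonneg zero_le_one h2.le
        have h8 : |m * (1 / (1 + xi i s(u, v))) * (P - 1 / (I.card : ℝ))| ≤
            m * 2 * (8 * x0 / m) := by
          rw [abs_mul, abs_of_nonneg (mul_nonneg hm0.le hy0)]
          exact mul_le_mul (mul_le_mul_of_nonneg_left h3 hm0.le) h5 (abs_nonneg _)
            (by positivity)
        have h9 : |m * (1 / (I.card : ℝ)) * (1 / (1 + xi i s(u, v)) - 1)| ≤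
            m * 1 * (2 * x0) := by
          rw [abs_mul, abs_of_nonneg (mul_nonneg hm0.le hc0)]
          exact mul_le_mul (mul_le_mul_of_nonneg_left hc hm0.le) h4 (abs_nonneg _)
            (by positivity)
        refine (abs_add_le _ _).trans ((add_le_add h8 h9).trans ?_)
        have h10 : (m : ℝ) * 2 * (8 * x0 / m) = 16 * x0 := by field_simp; ring
        rw [h10]
        nlinarith
      · rw [if_neg hi, mul_zero, sub_zero]
        unfold WEIGHTS_p
        rw [if_neg hi, mul_zero, abs_zero]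
        positivity
    · rw [if_neg huv, abs_zero]
      exact zero_le_one
  have hr0 : ∀ i u v, ∑ I, r i u v I = 0 := by
    intro i u v
    by_cases huv : G.Adj u v
    · have he : s(u, v) ∈ G.edgeSet := huv
      obtain ⟨h2, h3, h4⟩ := hinv i _ he
      have h5 : ∀ I, r i u v I = (m / (1 + xi i s(u, v)) / (20 * m * x0)) *
          WEIGHTS_p (fun k => xi k s(u, v)) I i - (m / (20 * m * x0)) *
          (if i ∈ I then 1 / (I.card : ℝ) else 0) := by
        intro I
        rw [hr, if_pos huv]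
        ring
      rw [Finset.sum_congr rfl fun I _ => h5 I, Finset.sum_sub_distrib, ← Finset.mul_sum,
        ← Finset.mul_sum]
      have h6 := WEIGHTS_p_total (by omega : 1 ≤ m) (fun k => xi k s(u, v)) (hx1 _ he) i
      have h7 := WEIGHTS_c m i
      have h8 : m / (1 + xi i s(u, v)) / (20 * m * x0) *
          ∑ I : Finset (Fin m), WEIGHTS_p (fun k => xi k s(u, v)) I i =
          1 / (1 + xi i s(u, v)) / (20 * m * x0) *
          (m * ∑ I : Finset (Fin m), WEIGHTS_p (fun k => xi k s(u, v)) I i) := by ring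
      have h9 : m / (20 * m * x0) * ∑ I : Finset (Fin m), (if i ∈ I then 1 / (I.card : ℝ) else 0) =
          1 / (20 * m * x0) * (m * ∑ I : Finset (Fin m), (if i ∈ I then 1 / (I.card : ℝ) else 0)) :=
        by ring
      rw [h8, h9, h6, h7]
      field_simp
      ring
    · refine Finset.sum_eq_zero fun I _ => ?_
      rw [hr, if_neg huv]
  obtain ⟨σ, β, hne, hrow, hβs, hβa, hβn, hβ1, hβ2, hβ3⟩ := hS V G D m r hreg hm hV (by
    calc 10 ^ 4 * m ^ 3 ≤ 10 ^ 12 * m ^ 5 := by
          have h1 : m ^ 3 ≤ m ^ 5 := Nat.pow_le_pow_right (by omega) (by norm_num)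
          nlinarith
      _ ≤ D := hD) hr1 hr0
  rw [hmD] at hrow
  -- the weights
  obtain ⟨w, hw⟩ : ∃ w : Fin m → Sym2 V → ℝ, ∀ i u v, w i s(u, v) =
      if G.Adj u v then (WEIGHTS_p (fun k => xi k s(u, v)) (pat σ u v) i -
        1 / m * ∑ j, β i j u v) / l i s(u, v) else 0 := by
    refine ⟨fun i => Sym2.lift ⟨fun u v => if G.Adj u v then
      (WEIGHTS_p (fun k => xi k s(u, v)) (pat σ u v) i - 1 / m * ∑ j, β i j u v) / l i s(u, v)
        else 0, ?_⟩, fun i u v => rfl⟩
    intro u v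
    simp only
    rw [Sym2.eq_swap (a := u) (b := v), WEIGHTS_pat_symm σ u v, G.adj_comm u v,
      Finset.sum_congr rfl fun j _ => hβs i j u v]
  have hl0 : ∀ i, ∀ e ∈ G.edgeSet, (0 : ℝ) < l i e := by
    intro i e he
    have h1 := (hinv i e he).1
    rw [hxid] at h1
    have h2 : 0 < (m : ℝ) * l i e / L := by linarith
    by_contra h3
    have h4 : (l i e : ℝ) = 0 := le_antisymm (not_lt.1 h3) (Nat.cast_nonneg _)
    rw [h4] at h2
    simp at h2
  have hβ0 : ∀ i u v, i ∉ pat σ u v → ∑ j, β i j u v = 0 := by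
    intro i u v hi
    refine Finset.sum_eq_zero fun j _ => ?_
    by_contra h1
    exact hi (hβn i j u v h1).2.1
  have hwz : ∀ i u v, i ∉ pat σ u v → w i s(u, v) = 0 := by
    intro i u v hi
    rw [hw]
    by_cases huv : G.Adj u v
    · rw [if_pos huv, hβ0 i u v hi]
      unfold WEIGHTS_p
      rw [if_neg hi]
      simp
    · rw [if_neg huv]
  have hcard : ∀ I : Finset (Fin m), (I.card : ℝ) ≤ m := by
    intro I
    have h1 := Finset.card_le_univ I
    rw [Fintype.card_fin] at h1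
    exact_mod_cast h1
  refine ⟨σ, w, ?_, ?_, ?_, ?_⟩
  · -- nonnegativity
    intro i e
    induction e using Sym2.ind with
    | _ u v =>
    by_cases hi : i ∈ pat σ u v
    · rw [hw]
      by_cases huv : G.Adj u v
      · rw [if_pos huv]
        have he : s(u, v) ∈ G.edgeSet := huv
        refine div_nonneg ?_ (Nat.cast_nonneg _)
        have h5 := WEIGHTS_p_bound (by omega : 1 ≤ m) (fun k => xi k s(u, v))
          (fun k => hxb k _ he) hi
        have h6 : 1 / (m : ℝ) ≤ 1 / ((pat σ u v).card : ℝ) := by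
          have h7 : (0 : ℝ) < (pat σ u v).card := by
            exact_mod_cast Finset.card_pos.2 ⟨i, hi⟩
          exact one_div_le_one_div_of_le h7 (hcard _)
        have h8 : |∑ j, β i j u v| ≤ m * (10 ^ 5 * (m * s) / t) := by
          refine (Finset.abs_sum_le_sum_abs _ _).trans ?_
          refine (Finset.sum_le_sum fun j _ => hβ1 i j u v).trans ?_
          rw [Finset.sum_const, Finset.card_univ, Fintype.card_fin, nsmul_eq_mul]
        have h9 : 1 / (m : ℝ) * ∑ j, β i j u v ≤ 1 / (10 * m) := by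
          have h10 : 1 / (m : ℝ) * ∑ j, β i j u v ≤ 1 / m * (m * (10 ^ 5 * (m * s) / t)) :=
            mul_le_mul_of_nonneg_left ((le_abs_self _).trans h8) (by positivity)
          refine h10.trans ?_
          have h11 : 1 / (m : ℝ) * (m * (10 ^ 5 * (m * s) / t)) = 10 ^ 5 * (m * s) / t := by
            field_simp
          rw [h11, div_le_div_iff₀ ht0 (by positivity)]
          nlinarith
        have h12 : 8 * x0 / m ≤ 1 / (10 * m) := by
          rw [div_le_div_iff₀ hm0 (by positivity)]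
          nlinarith
        have h13 := (abs_le.1 h5).1
        have h14 : (1 : ℝ) / (10 * m) = 1 / 10 * (1 / m) := by field_simp
        rw [h14] at h9 h12
        have h15 : (0 : ℝ) < 1 / m := by positivity
        linarith
      · rw [if_neg huv]
    · rw [hwz i u v hi]
  · intro i u v h1
    by_contra h2
    apply h1
    apply hwz
    unfold pat
    rw [Finset.mem_filter]
    exact fun h3 => h3.2 h2
  · -- total weight
    intro e
    induction e using Sym2.ind with
    | _ u v =>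
    intro he
    have huv : G.Adj u v := he
    have h1 : ∀ i, (l i s(u, v) : ℝ) * w i s(u, v) =
        WEIGHTS_p (fun k => xi k s(u, v)) (pat σ u v) i - 1 / m * ∑ j, β i j u v := by
      intro i
      rw [hw, if_pos huv]
      exact mul_div_cancel₀ _ (hl0 i _ he).ne'
    rw [Finset.sum_congr rfl fun i _ => h1 i, Finset.sum_sub_distrib,
      WEIGHTS_p_sum _ (hne u v huv), ← Finset.mul_sum]
    have h2 : ∑ i, ∑ j, β i j u v = 0 := by
      have h3 : ∑ i, ∑ j, β i j u v = -∑ i, ∑ j, β i j u v := by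
        conv_lhs => rw [Finset.sum_comm]
        rw [← Finset.sum_neg_distrib]
        refine Finset.sum_congr rfl fun i _ => ?_
        rw [← Finset.sum_neg_distrib]
        refine Finset.sum_congr rfl fun j _ => ?_
        exact hβa i j u v
      linarith
    rw [h2, mul_zero, sub_zero]
  · -- loads
    intro i u
    have hNb : ∀ v ∈ Nb G u, G.Adj u v := by
      intro v hv
      unfold Nb at hv
      rw [Finset.mem_filter] at hv
      exact hv.2
    have h1 : ∀ v ∈ Nb G u, (L : ℝ) * w i s(u, v) =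
        (m * (if i ∈ pat σ u v then 1 / ((pat σ u v).card : ℝ) else 0) +
          20 * m * x0 * r i u v (pat σ u v)) - ∑ j, β i j u v -
          (1 / (1 + xi i s(u, v)) - 1) * ∑ j, β i j u v := by
      intro v hv
      have huv := hNb v hv
      have he : s(u, v) ∈ G.edgeSet := huv
      obtain ⟨h2, -, -⟩ := hinv i _ he
      have h3 := hl0 i _ he
      have hX : (20 * m * x0 : ℝ) ≠ 0 := by positivity
      have hL' : (L : ℝ) * (1 + xi i s(u, v)) = (l i s(u, v) : ℝ) * m := by
        rw [hxid]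
        field_simp
        ring
      rw [hw, if_pos huv, hr, if_pos huv]
      exact WEIGHTS_gen (m : ℝ) (L : ℝ) (l i s(u, v) : ℝ) (1 + xi i s(u, v))
        (WEIGHTS_p (fun k => xi k s(u, v)) (pat σ u v) i) (∑ j, β i j u v)
        (if i ∈ pat σ u v then 1 / ((pat σ u v).card : ℝ) else 0) (20 * m * x0) hm0 h2 h3 hX hL'
    have h6 : (L : ℝ) * ∑ v ∈ Nb G u, w i s(u, v) =
        ∑ v ∈ Nb G u, m * (if i ∈ pat σ u v then 1 / ((pat σ u v).card : ℝ) else 0) +
        20 * m * x0 * ∑ v ∈ Nb G u, r i u v (pat σ u v) -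
        ∑ v ∈ Nb G u, ∑ j, β i j u v -
        ∑ v ∈ Nb G u, (1 / (1 + xi i s(u, v)) - 1) * ∑ j, β i j u v := by
      rw [Finset.mul_sum, Finset.sum_congr rfl h1, Finset.sum_sub_distrib,
        Finset.sum_sub_distrib, Finset.sum_add_distrib, Finset.mul_sum]
    -- the main terms
    have hβall : ∀ j, ∑ v ∈ Nb G u, β i j u v = ∑ v, β i j u v := by
      intro j
      unfold Nb
      rw [Finset.sum_filter]
      refine Finset.sum_congr rfl fun v _ => ?_
      by_cases h7 : G.Adj u v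
      · rw [if_pos h7]
      · rw [if_neg h7]
        by_contra h8
        exact h7 (hβn i j u v (fun h9 => h8 h9.symm)).1
    have h7 : ∑ v ∈ Nb G u, m * (if i ∈ pat σ u v then 1 / ((pat σ u v).card : ℝ) else 0) -
        ∑ j : Fin m, ∑ v ∈ Nb G u, ((if i ∈ pat σ u v then (1 : ℝ) else 0) -
          (if j ∈ pat σ u v then 1 else 0)) / ((pat σ u v).card : ℝ) = D := by
      rw [Finset.sum_comm, ← Finset.sum_sub_distrib]
      have h8 : ∀ v ∈ Nb G u, (m * (if i ∈ pat σ u v then 1 / ((pat σ u v).card : ℝ) else 0) -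
          ∑ j : Fin m, ((if i ∈ pat σ u v then (1 : ℝ) else 0) -
          (if j ∈ pat σ u v then 1 else 0)) / ((pat σ u v).card : ℝ)) = 1 := by
        intro v hv
        have h9 := WEIGHTS_one (hne u v (hNb v hv))
        have h10 : ∀ j : Fin m, ((if i ∈ pat σ u v then (1 : ℝ) else 0) -
            (if j ∈ pat σ u v then 1 else 0)) / ((pat σ u v).card : ℝ) =
            (if i ∈ pat σ u v then 1 / ((pat σ u v).card : ℝ) else 0) -
            (if j ∈ pat σ u v then 1 / ((pat σ u v).card : ℝ) else 0) := by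
          intro j
          split_ifs <;> ring
        rw [Finset.sum_congr rfl fun j _ => h10 j, Finset.sum_sub_distrib, h9, Finset.sum_const,
          Finset.card_univ, Fintype.card_fin, nsmul_eq_mul]
        ring
      rw [Finset.sum_congr rfl h8, Finset.sum_const, nsmul_eq_mul, mul_one, hreg u]
    have h8 : |∑ v ∈ Nb G u, ∑ j, β i j u v - ∑ j : Fin m, ∑ v ∈ Nb G u,
        ((if i ∈ pat σ u v then (1 : ℝ) else 0) -
          (if j ∈ pat σ u v then 1 else 0)) / ((pat σ u v).card : ℝ)| ≤ m * (10 ^ 6 * m ^ 2) := by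
      rw [Finset.sum_comm, ← Finset.sum_sub_distrib]
      refine (Finset.abs_sum_le_sum_abs _ _).trans ?_
      have h9 : ∀ j ∈ (univ : Finset (Fin m)), |∑ v ∈ Nb G u, β i j u v -
          ∑ v ∈ Nb G u, ((if i ∈ pat σ u v then (1 : ℝ) else 0) -
          (if j ∈ pat σ u v then 1 else 0)) / ((pat σ u v).card : ℝ)| ≤ 10 ^ 6 * m ^ 2 := by
        intro j _
        rw [hβall j]
        exact hβ3 i j u
      refine (Finset.sum_le_sum h9).trans ?_
      rw [Finset.sum_const, Finset.card_univ, Fintype.card_fin, nsmul_eq_mul]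
    have h9 : |∑ v ∈ Nb G u, (1 / (1 + xi i s(u, v)) - 1) * ∑ j, β i j u v| ≤
        2 * x0 * (m * (10 ^ 5 * (m * s) * t)) := by
      refine (Finset.abs_sum_le_sum_abs _ _).trans ?_
      have h10 : ∀ v ∈ Nb G u, |(1 / (1 + xi i s(u, v)) - 1) * ∑ j, β i j u v| ≤
          2 * x0 * ∑ j, |β i j u v| := by
        intro v hv
        rw [abs_mul]
        exact mul_le_mul (hinv i _ (hNb v hv)).2.2 (Finset.abs_sum_le_sum_abs _ _)
          (abs_nonneg _) (by positivity)
      refine (Finset.sum_le_sum h10).trans ?_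
      rw [← Finset.mul_sum, Finset.sum_comm]
      refine mul_le_mul_of_nonneg_left ?_ (by positivity)
      have h11 : ∀ j ∈ (univ : Finset (Fin m)), ∑ v ∈ Nb G u, |β i j u v| ≤
          10 ^ 5 * (m * s) * t := by
        intro j _
        refine le_trans ?_ (hβ2 i j u)
        exact Finset.sum_le_sum_of_subset_of_nonneg (Finset.subset_univ _)
          fun v _ _ => abs_nonneg _
      refine (Finset.sum_le_sum h11).trans ?_
      rw [Finset.sum_const, Finset.card_univ, Fintype.card_fin, nsmul_eq_mul]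
    have h10 := hrow i u
    have h11 : 20 * m * x0 * ∑ v ∈ Nb G u, r i u v (pat σ u v) ≤ 20 * m * x0 * (25 * (s * t)) :=
      mul_le_mul_of_nonneg_left ((le_abs_self _).trans h10) (by positivity)
    have h13a : s / t * t = s := div_mul_cancel₀ _ ht0.ne'
    have h12 : 20 * m * x0 * (25 * (s * t)) = 1000 * (m : ℝ) ^ 3 := by
      calc 20 * m * x0 * (25 * (s * t)) = 1000 * (m : ℝ) ^ 2 * s * (s / t * t) := by
            rw [hx0]; ring
        _ = 1000 * (m : ℝ) ^ 2 * (s * s) := by rw [h13a]; ring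
        _ = 1000 * (m : ℝ) ^ 3 := by rw [hss]; ring
    have h13 : 2 * x0 * (m * (10 ^ 5 * (m * s) * t)) = 4 * 10 ^ 5 * (m : ℝ) ^ 4 := by
      calc 2 * x0 * (m * (10 ^ 5 * (m * s) * t)) =
            4 * 10 ^ 5 * (m : ℝ) ^ 3 * s * (s / t * t) := by rw [hx0]; ring
        _ = 4 * 10 ^ 5 * (m : ℝ) ^ 3 * (s * s) := by rw [h13a]; ring
        _ = 4 * 10 ^ 5 * (m : ℝ) ^ 4 := by rw [hss]; ring
    have h14 := (abs_le.1 h8).1
    have h15 := (abs_le.1 h9).1
    rw [h13] at h15
    rw [h12] at h11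
    have h16 : (L : ℝ) * ∑ v ∈ Nb G u, w i s(u, v) ≤ D + 10 ^ 6 * (m : ℝ) ^ 4 := by
      have h17 : (m : ℝ) * (10 ^ 6 * m ^ 2) = 10 ^ 6 * (m : ℝ) ^ 3 := by ring
      have h18 : (60 : ℝ) * (m : ℝ) ^ 3 ≤ (m : ℝ) ^ 4 := by
        have h19 : (m : ℝ) ^ 4 = m * (m : ℝ) ^ 3 := by ring
        rw [h19]
        exact mul_le_mul_of_nonneg_right hm1 (by positivity)
      rw [h17] at h14
      have h20 : (0 : ℝ) < (m : ℝ) ^ 3 := by positivity
      linarith
    have h17 : (L : ℝ) * ∑ v ∈ Nb G u, w i s(u, v) ≤ L * 1 := by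
      rw [mul_one]; exact h16.trans hLD
    exact le_of_mul_le_mul_left h17 hL0

end Pool.Agent.Helper15.LP
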